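import Pool.Agent.Lib.MP_0b03d8_co.Limit
import Pool.Agent.Lib.MP_0b03d8_co.Shape

set_option autoImplicit false

open Pool.Agent.Lib.MP_0b03d8_co

namespace Pool.Agent.Results.MP_0b03d8_co.SlitRatio

/-- Q1 is false, and the set of `(p, h)` for which `r = 1` maximises the growth rate is determined. -/
theorem result :
    (∃ p h r c c' : ℝ, 0 < p ∧ p < 2 ∧ 0 < h ∧ h < 1 ∧ h ≤ 1 - p / 2 ∧ 0 < r ∧ r ≠ 1 ∧
      IsGrowthRate p h r c ∧ IsGrowthRate p h 1 c' ∧ c' < c) ∧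
    ∀ p h : ℝ, 0 < p → p < 2 → 0 < h → h ≤ 1 - p / 2 →
      (∀ r : ℝ, 0 < r → IsGrowthRate p h r (rate p h r)) ∧
      ((∀ r : ℝ, 0 < r → rate p h r ≤ rate p h 1) ↔
        slit p h 0 + slit p h p ≤ 2 * slit p h (p / 2)) ∧
      (h * (2 - p / 2) < (1 - p / 2) ^ 2 → ∀ r : ℝ, 0 < r → r ≠ 1 → rate p h 1 < rate p h r) ∧
      ((1 - p / 2) / 2 ≤ h → ∀ r : ℝ, 0 < r → rate p h r ≤ rate p h 1) := by
  have key : ∀ p h r : ℝ, 0 < p → 0 < h → h ≤ 1 - p / 2 → 0 < r → IsGrowthRate p h r (rate p h r) :=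
    fun p h r hp hh hhp hr => ⟨exists_paramSeq hp hh hhp hr, fun _ _ _ _ H => rate_limit hr H⟩
  refine ⟨⟨1, 1 / 10, 2, rate 1 (1 / 10) 2, rate 1 (1 / 10) 1, by norm_num, by norm_num,
    by norm_num, by norm_num, by norm_num, by norm_num, by norm_num,
    key _ _ _ (by norm_num) (by norm_num) (by norm_num) (by norm_num),
    key _ _ _ (by norm_num) (by norm_num) (by norm_num) (by norm_num),
    rate_min (by norm_num) (by norm_num) (by norm_num) (by norm_num) (by norm_num) (by norm_num)⟩,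
    fun p h hp0 hp hh hhp => ⟨fun r hr => key p h r hp0 hh hhp hr, rate_max_iff hp0 hp hh,
      fun hs r hr hr1 => rate_min hp0 hp hh hs hr hr1,
      fun hl r hr => rate_max_of_large hp0 hp hh hl hr⟩⟩

end Pool.Agent.Results.MP_0b03d8_co.SlitRatio
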